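import Mathlib

/-!
# A word whose values on `SL(2, 2 ^ n)` miss half of the regular semisimple classes

`w = x⁴ y x y⁻¹ x⁻¹ y x y⁻¹ x⁻² y x⁻¹ y⁻¹ x⁻¹ y x⁻¹ y⁻¹`.  With `s = tr x` and
`c = tr (x (y x y⁻¹)⁻¹)` the trace of `w(x, y)` over a field of characteristic `2` is `A ^ 2 + A`
with `A = s ^ 4 c + s ^ 2 c ^ 2`.
-/

set_option autoImplicit false

open Matrix
open scoped MatrixGroups

namespace Pool.Agent.W332.Half

section algebra

variable {R : Type*} [CommRing R]

/-- The combination `e0 + e1 a + e2 b + e3 a b`. -/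
def comb (a b : Matrix (Fin 2) (Fin 2) R) (e0 e1 e2 e3 : R) : Matrix (Fin 2) (Fin 2) R :=
  e0 • (1 : Matrix (Fin 2) (Fin 2) R) + e1 • a + e2 • b + e3 • (a * b)

lemma comb_mul_a {a b : Matrix (Fin 2) (Fin 2) R} {s c : R}
    (haa : a * a = s • a - 1) (hba : b * a = -(a * b) + s • a + s • b - c • 1)
    (e0 e1 e2 e3 : R) :
    comb a b e0 e1 e2 e3 * a =
      comb a b (-e1 - c * e2 - s * e3) (e0 + s * e1 + s * e2 + (s ^ 2 - c) * e3)
        (s * e2 + e3) (-e2) := by
  have h3 : a * b * a = (-s) • (1 : Matrix (Fin 2) (Fin 2) R) + (s ^ 2 - c) • a + b := by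
    rw [mul_assoc, hba, mul_sub, mul_add, mul_add, mul_neg, ← mul_assoc, haa, mul_smul_comm,
      mul_smul_comm, mul_smul_comm, haa, sub_mul, smul_mul_assoc, mul_one, one_mul]
    module
  unfold comb
  rw [add_mul, add_mul, add_mul, smul_mul_assoc, smul_mul_assoc, smul_mul_assoc, smul_mul_assoc,
    h3, hba, haa, one_mul]
  module

lemma comb_mul_a' {a a' b : Matrix (Fin 2) (Fin 2) R} {s c : R} (ha' : a' = s • 1 - a)
    (haa : a * a = s • a - 1) (hba : b * a = -(a * b) + s • a + s • b - c • 1)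
    (e0 e1 e2 e3 : R) :
    comb a b e0 e1 e2 e3 * a' =
      comb a b (s * e0 + e1 + c * e2 + s * e3) (-e0 - s * e2 - (s ^ 2 - c) * e3)
        (-e3) (s * e3 + e2) := by
  rw [ha', mul_sub, comb_mul_a haa hba, mul_smul_comm, mul_one]
  unfold comb
  module

lemma comb_mul_b {a b : Matrix (Fin 2) (Fin 2) R} {s : R}
    (hbb : b * b = s • b - 1) (e0 e1 e2 e3 : R) :
    comb a b e0 e1 e2 e3 * b =
      comb a b (-e2) (-e3) (e0 + s * e2) (e1 + s * e3) := by
  have h3 : a * b * b = s • (a * b) - a := by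
    rw [mul_assoc, hbb, mul_sub, mul_smul_comm, mul_one]
  unfold comb
  rw [add_mul, add_mul, add_mul, smul_mul_assoc, smul_mul_assoc, smul_mul_assoc, smul_mul_assoc,
    h3, hbb, one_mul]
  module

lemma comb_mul_b' {a b b' : Matrix (Fin 2) (Fin 2) R} {s : R} (hb' : b' = s • 1 - b)
    (hbb : b * b = s • b - 1) (e0 e1 e2 e3 : R) :
    comb a b e0 e1 e2 e3 * b' =
      comb a b (s * e0 + e2) (s * e1 + e3) (-e0) (-e1) := by
  rw [hb', mul_sub, comb_mul_b hbb, mul_smul_comm, mul_one]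
  unfold comb
  module

lemma trace_comb (a b : Matrix (Fin 2) (Fin 2) R) (s c : R) (ha : a.trace = s) (hb : b.trace = s)
    (hab : (a * b).trace = s ^ 2 - c) (e0 e1 e2 e3 : R) :
    (comb a b e0 e1 e2 e3).trace = 2 * e0 + s * e1 + s * e2 + (s ^ 2 - c) * e3 := by
  unfold comb
  rw [trace_add, trace_add, trace_add, trace_smul, trace_smul, trace_smul, trace_smul, ha, hb,
    hab, trace_one]
  simp only [Fintype.card_fin, smul_eq_mul]
  push_cast
  ring

/-- The trace of the word in characteristic `2`. -/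
lemma trace_word (h2 : (2 : R) = 0) (a b a' b' : Matrix (Fin 2) (Fin 2) R) (s c : R)
    (ha : a.trace = s) (hb : b.trace = s) (hab : (a * b).trace = s ^ 2 - c)
    (haa : a * a = s • a - 1) (hbb : b * b = s • b - 1)
    (hba : b * a = -(a * b) + s • a + s • b - c • 1) (ha' : a' = s • 1 - a)
    (hb' : b' = s • 1 - b) :
    (1 * a * a * a * a * b * a' * b * a' * a' * b' * a' * b').trace =
      (s ^ 4 * c + s ^ 2 * c ^ 2) ^ 2 + (s ^ 4 * c + s ^ 2 * c ^ 2) := by
  have k1 : comb a b (1) (0) (0) (0) * a =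
      comb a b (0) (1) (0) (0) := by
    rw [comb_mul_a haa hba]
    congr 1
    · linear_combination (0) * h2
    · linear_combination (0) * h2
    · linear_combination (0) * h2
    · linear_combination (0) * h2
  have k2 : comb a b (0) (1) (0) (0) * a =
      comb a b (1) (s) (0) (0) := by
    rw [comb_mul_a haa hba]
    congr 1
    · linear_combination (-1) * h2
    · linear_combination (0) * h2
    · linear_combination (0) * h2
    · linear_combination (0) * h2
  have k3 : comb a b (1) (s) (0) (0) * a =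
      comb a b (s) (s^2 + 1) (0) (0) := by
    rw [comb_mul_a haa hba]
    congr 1
    · linear_combination (-s) * h2
    · linear_combination (0) * h2
    · linear_combination (0) * h2
    · linear_combination (0) * h2
  have k4 : comb a b (s) (s^2 + 1) (0) (0) * a =
      comb a b (s^2 + 1) (s^3) (0) (0) := by
    rw [comb_mul_a haa hba]
    congr 1
    · linear_combination (-s^2 - 1) * h2
    · linear_combination (s) * h2
    · linear_combination (0) * h2
    · linear_combination (0) * h2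
  have k5 : comb a b (s^2 + 1) (s^3) (0) (0) * b =
      comb a b (0) (0) (s^2 + 1) (s^3) := by
    rw [comb_mul_b hbb]
    congr 1
    · linear_combination (0) * h2
    · linear_combination (0) * h2
    · linear_combination (0) * h2
    · linear_combination (0) * h2
  have k6 : comb a b (0) (0) (s^2 + 1) (s^3) * a' =
      comb a b (s^4 + s^2*c + c) (s^5 + s^3*c + s^3 + s) (s^3) (s^4 + s^2 + 1) := by
    rw [comb_mul_a' ha' haa hba]
    congr 1
    · linear_combination (0) * h2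
    · linear_combination (-s^5 - s^3 - s) * h2
    · linear_combination (-s^3) * h2
    · linear_combination (0) * h2
  have k7 : comb a b (s^4 + s^2*c + c) (s^5 + s^3*c + s^3 + s) (s^3) (s^4 + s^2 + 1) * b =
      comb a b (s^3) (s^4 + s^2 + 1) (s^2*c + c) (s^3*c) := by
    rw [comb_mul_b hbb]
    congr 1
    · linear_combination (-s^3) * h2
    · linear_combination (-s^4 - s^2 - 1) * h2
    · linear_combination (s^4) * h2
    · linear_combination (s^5 + s^3 + s) * h2
  have k8 : comb a b (s^3) (s^4 + s^2 + 1) (s^2*c + c) (s^3*c) * a' =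
      comb a b (s^4*c + s^2*c^2 + s^2 + c^2 + 1) (s^5*c + s^3*c^2 + s^3*c + s^3 + s*c) (s^3*c) (s^4*c + s^2*c + c) := by
    rw [comb_mul_a' ha' haa hba]
    congr 1
    · linear_combination (s^4) * h2
    · linear_combination (-s^5*c - s^3*c - s^3 - s*c) * h2
    · linear_combination (-s^3*c) * h2
    · linear_combination (0) * h2
  have k9 : comb a b (s^4*c + s^2*c^2 + s^2 + c^2 + 1) (s^5*c + s^3*c^2 + s^3*c + s^3 + s*c) (s^3*c) (s^4*c + s^2*c + c) * a' =
      comb a b (s^5*c + s^3*c^2 + s*c^2 + s) (s^6*c + s^4*c^2 + s^4*c + s^2*c + s^2 + 1) (s^4*c + s^2*c + c) (s^5*c + s*c) := by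
    rw [comb_mul_a' ha' haa hba]
    congr 1
    · linear_combination (s^5*c + s^3*c^2 + s^3*c + s^3 + s*c) * h2
    · linear_combination (-s^6*c - 2*s^4*c - s^2*c - s^2 - 1) * h2
    · linear_combination (-s^4*c - s^2*c - c) * h2
    · linear_combination (s^3*c) * h2
  have k10 : comb a b (s^5*c + s^3*c^2 + s*c^2 + s) (s^6*c + s^4*c^2 + s^4*c + s^2*c + s^2 + 1) (s^4*c + s^2*c + c) (s^5*c + s*c) * b' =
      comb a b (s^6*c + s^4*c^2 + s^4*c + s^2*c^2 + s^2*c + s^2 + c) (s^7*c + s^5*c^2 + s^3*c + s^3 + s*c + s) (s^5*c + s^3*c^2 + s*c^2 + s) (s^6*c + s^4*c^2 + s^4*c + s^2*c + s^2 + 1) := by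
    rw [comb_mul_b' hb' hbb]
    congr 1
    · linear_combination (0) * h2
    · linear_combination (s^5*c) * h2
    · linear_combination (-s^5*c - s^3*c^2 - s*c^2 - s) * h2
    · linear_combination (-s^6*c - s^4*c^2 - s^4*c - s^2*c - s^2 - 1) * h2
  have k11 : comb a b (s^6*c + s^4*c^2 + s^4*c + s^2*c^2 + s^2*c + s^2 + c) (s^7*c + s^5*c^2 + s^3*c + s^3 + s*c + s) (s^5*c + s^3*c^2 + s*c^2 + s) (s^6*c + s^4*c^2 + s^4*c + s^2*c + s^2 + 1) * a' =
      comb a b (s^7*c + s^3*c^3 + s^3*c^2 + s^3*c + s^3 + s*c^3 + s*c) (s^8*c + s^6*c + s^4*c^3 + s^4*c^2 + s^4 + s^2*c^2 + s^2) (s^6*c + s^4*c^2 + s^4*c + s^2*c + s^2 + 1) (s^7*c + s^5*c^2 + s^3*c^2 + s^3*c + s^3 + s*c^2) := by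
    rw [comb_mul_a' ha' haa hba]
    congr 1
    · linear_combination (s^7*c + 2*s^5*c^2 + s^5*c + s^3*c + s^3 + s*c + s) * h2
    · linear_combination (-s^8*c - 2*s^6*c - s^4*c^2 - s^4*c - s^4 - s^2*c^2 - 2*s^2) * h2
    · linear_combination (-s^6*c - s^4*c^2 - s^4*c - s^2*c - s^2 - 1) * h2
    · linear_combination (s^5*c + s) * h2
  have k12 : comb a b (s^7*c + s^3*c^3 + s^3*c^2 + s^3*c + s^3 + s*c^3 + s*c) (s^8*c + s^6*c + s^4*c^3 + s^4*c^2 + s^4 + s^2*c^2 + s^2) (s^6*c + s^4*c^2 + s^4*c + s^2*c + s^2 + 1) (s^7*c + s^5*c^2 + s^3*c^2 + s^3*c + s^3 + s*c^2) * b' =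
      comb a b (s^8*c + s^6*c + s^4*c^3 + s^4 + s^2*c^3 + s^2 + 1) (s^9*c + s^5*c^3 + s^5 + s^3*c + s*c^2) (s^7*c + s^3*c^3 + s^3*c^2 + s^3*c + s^3 + s*c^3 + s*c) (s^8*c + s^6*c + s^4*c^3 + s^4*c^2 + s^4 + s^2*c^2 + s^2) := by
    rw [comb_mul_b' hb' hbb]
    congr 1
    · linear_combination (s^4*c^2 + s^4*c + s^2*c) * h2
    · linear_combination (s^7*c + s^5*c^2 + s^3*c^2 + s^3) * h2
    · linear_combination (-s^7*c - s^3*c^3 - s^3*c^2 - s^3*c - s^3 - s*c^3 - s*c) * h2
    · linear_combination (-s^8*c - s^6*c - s^4*c^3 - s^4*c^2 - s^4 - s^2*c^2 - s^2) * h2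

  have h0 : (1 : Matrix (Fin 2) (Fin 2) R) = comb a b (1) (0) (0) (0) := by
    unfold comb; module
  rw [h0, k1, k2, k3, k4, k5, k6, k7, k8, k9, k10, k11, k12, trace_comb a b s c ha hb hab]
  linear_combination (s^10*c - s^8*c^2 + 2*s^8*c + s^6*c + s^6 - s^4*c^4 + s^4*c^3 + s^4*c^2 + 2*s^4 + s^2*c^3 + s^2 + 1) * h2

end algebra

section word

/-- The value of the word at a pair of group elements. -/
def wordVal {G : Type*} [Group G] (x y : G) : G :=
  x ^ 4 * y * x * y⁻¹ * x⁻¹ * y * x * y⁻¹ * (x ^ 2)⁻¹ * y * x⁻¹ * y⁻¹ * x⁻¹ * y * x⁻¹ * y⁻¹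

/-- The word itself, as an element of the free group on the letters `0` (for `x`) and `1`
(for `y`). -/
def word : FreeGroup (Fin 2) :=
  FreeGroup.of 0 ^ 4 * FreeGroup.of 1 * FreeGroup.of 0 * (FreeGroup.of 1)⁻¹ * (FreeGroup.of 0)⁻¹ *
    FreeGroup.of 1 * FreeGroup.of 0 * (FreeGroup.of 1)⁻¹ * (FreeGroup.of 0 ^ 2)⁻¹ *
    FreeGroup.of 1 * (FreeGroup.of 0)⁻¹ * (FreeGroup.of 1)⁻¹ * (FreeGroup.of 0)⁻¹ *
    FreeGroup.of 1 * (FreeGroup.of 0)⁻¹ * (FreeGroup.of 1)⁻¹

lemma lift_word {G : Type*} [Group G] (x y : G) : FreeGroup.lift ![x, y] word = wordVal x y := by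
  unfold word wordVal
  simp only [map_mul, map_pow, map_inv, FreeGroup.lift_apply_of, Matrix.cons_val_zero,
    Matrix.cons_val_one]

lemma wordVal_eq {G : Type*} [Group G] (x y : G) :
    wordVal x y = 1 * x * x * x * x * (y * x * y⁻¹) * x⁻¹ * (y * x * y⁻¹) * x⁻¹ * x⁻¹ *
      (y * x * y⁻¹)⁻¹ * x⁻¹ * (y * x * y⁻¹)⁻¹ := by
  have h4 : x ^ 4 = x * x * x * x := by simp only [pow_succ, pow_zero, one_mul]
  unfold wordVal
  rw [h4]
  group

end word

section nonpower

/-- traces of powers of an integral matrix of determinant one -/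
def ch (t : ℤ) : ℕ → ℤ
  | 0 => 2
  | 1 => t
  | (n + 2) => t * ch t (n + 1) - ch t n

lemma trace_pow (A : SL(2, ℤ)) (n : ℕ) :
    ((A ^ n : SL(2, ℤ)) : Matrix (Fin 2) (Fin 2) ℤ).trace =
      ch (A : Matrix (Fin 2) (Fin 2) ℤ).trace n := by
  induction n using Nat.strong_induction_on with
  | _ n ih =>
    match n with
    | 0 => simp [ch]
    | 1 => simp [ch]
    | (k + 2) =>
      have h1 := ih k (by omega)
      have h2 := ih (k + 1) (by omega)
      have hdet : (A : Matrix (Fin 2) (Fin 2) ℤ) 0 0 * (A : Matrix (Fin 2) (Fin 2) ℤ) 1 1 -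
          (A : Matrix (Fin 2) (Fin 2) ℤ) 0 1 * (A : Matrix (Fin 2) (Fin 2) ℤ) 1 0 = 1 := by
        have := A.det_coe
        rwa [Matrix.det_fin_two] at this
      unfold ch
      rw [← h1, ← h2]
      simp only [pow_succ, Matrix.SpecialLinearGroup.coe_mul, Matrix.trace_fin_two,
        Matrix.mul_apply, Fin.sum_univ_two]
      generalize ((A ^ k : SL(2, ℤ)) : Matrix (Fin 2) (Fin 2) ℤ) = B
      linear_combination (-(B 0 0 + B 1 1)) * hdet

lemma ch_small (t : ℤ) (ht : |t| ≤ 2) (n : ℕ) : |ch t n| ≤ 2 := by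
  obtain ⟨h1, h2⟩ := abs_le.1 ht
  have key : ∀ n, |ch t n| ≤ 2 ∧ |ch t (n + 1)| ≤ 2 ∧ |t * ch t (n + 1) - ch t n| ≤ 2 := by
    intro n
    have h3 : t = -2 ∨ t = -1 ∨ t = 0 ∨ t = 1 ∨ t = 2 := by omega
    rcases h3 with rfl | rfl | rfl | rfl | rfl
    · have : ∀ n, (ch (-2) n = 2 ∧ ch (-2) (n + 1) = -2) ∨
          (ch (-2) n = -2 ∧ ch (-2) (n + 1) = 2) := by
        intro n
        induction n with
        | zero => left; constructor <;> rfl
        | succ n ih =>
          have : ch (-2) (n + 1 + 1) = -2 * ch (-2) (n + 1) - ch (-2) n := rfl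
          rcases ih with ⟨a, b⟩ | ⟨a, b⟩
          · right; exact ⟨b, by rw [this, a, b]; norm_num⟩
          · left; exact ⟨b, by rw [this, a, b]; norm_num⟩
      rcases this n with ⟨a, b⟩ | ⟨a, b⟩ <;> rw [a, b] <;> norm_num
    · have : ∀ n, (ch (-1) n = 2 ∧ ch (-1) (n + 1) = -1) ∨
          (ch (-1) n = -1 ∧ ch (-1) (n + 1) = -1) ∨ (ch (-1) n = -1 ∧ ch (-1) (n + 1) = 2) := by
        intro n
        induction n with
        | zero => left; constructor <;> rfl
        | succ n ih =>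
          have : ch (-1) (n + 1 + 1) = -1 * ch (-1) (n + 1) - ch (-1) n := rfl
          rcases ih with ⟨a, b⟩ | ⟨a, b⟩ | ⟨a, b⟩
          · right; left; exact ⟨b, by rw [this, a, b]; norm_num⟩
          · right; right; exact ⟨b, by rw [this, a, b]; norm_num⟩
          · left; exact ⟨b, by rw [this, a, b]; norm_num⟩
      rcases this n with ⟨a, b⟩ | ⟨a, b⟩ | ⟨a, b⟩ <;> rw [a, b] <;> norm_num
    · have : ∀ n, (ch 0 n = 2 ∧ ch 0 (n + 1) = 0) ∨ (ch 0 n = 0 ∧ ch 0 (n + 1) = -2) ∨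
          (ch 0 n = -2 ∧ ch 0 (n + 1) = 0) ∨ (ch 0 n = 0 ∧ ch 0 (n + 1) = 2) := by
        intro n
        induction n with
        | zero => left; constructor <;> rfl
        | succ n ih =>
          have : ch 0 (n + 1 + 1) = 0 * ch 0 (n + 1) - ch 0 n := rfl
          rcases ih with ⟨a, b⟩ | ⟨a, b⟩ | ⟨a, b⟩ | ⟨a, b⟩
          · right; left; exact ⟨b, by rw [this, a, b]; norm_num⟩
          · right; right; left; exact ⟨b, by rw [this, a, b]; norm_num⟩
          · right; right; right; exact ⟨b, by rw [this, a, b]; norm_num⟩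
          · left; exact ⟨b, by rw [this, a, b]; norm_num⟩
      rcases this n with ⟨a, b⟩ | ⟨a, b⟩ | ⟨a, b⟩ | ⟨a, b⟩ <;> rw [a, b] <;> norm_num
    · have : ∀ n, (ch 1 n = 2 ∧ ch 1 (n + 1) = 1) ∨ (ch 1 n = 1 ∧ ch 1 (n + 1) = -1) ∨
          (ch 1 n = -1 ∧ ch 1 (n + 1) = -2) ∨ (ch 1 n = -2 ∧ ch 1 (n + 1) = -1) ∨
          (ch 1 n = -1 ∧ ch 1 (n + 1) = 1) ∨ (ch 1 n = 1 ∧ ch 1 (n + 1) = 2) := by
        intro n
        induction n with
        | zero => left; constructor <;> rfl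
        | succ n ih =>
          have : ch 1 (n + 1 + 1) = 1 * ch 1 (n + 1) - ch 1 n := rfl
          rcases ih with ⟨a, b⟩ | ⟨a, b⟩ | ⟨a, b⟩ | ⟨a, b⟩ | ⟨a, b⟩ | ⟨a, b⟩
          · right; left; exact ⟨b, by rw [this, a, b]; norm_num⟩
          · right; right; left; exact ⟨b, by rw [this, a, b]; norm_num⟩
          · right; right; right; left; exact ⟨b, by rw [this, a, b]; norm_num⟩
          · right; right; right; right; left; exact ⟨b, by rw [this, a, b]; norm_num⟩
          · right; right; right; right; right; exact ⟨b, by rw [this, a, b]; norm_num⟩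
          · left; exact ⟨b, by rw [this, a, b]; norm_num⟩
      rcases this n with ⟨a, b⟩ | ⟨a, b⟩ | ⟨a, b⟩ | ⟨a, b⟩ | ⟨a, b⟩ | ⟨a, b⟩ <;> rw [a, b] <;>
        norm_num
    · have : ∀ n, ch 2 n = 2 ∧ ch 2 (n + 1) = 2 := by
        intro n
        induction n with
        | zero => constructor <;> rfl
        | succ n ih =>
          have : ch 2 (n + 1 + 1) = 2 * ch 2 (n + 1) - ch 2 n := rfl
          exact ⟨ih.2, by rw [this, ih.1, ih.2]; norm_num⟩
      obtain ⟨a, b⟩ := this n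
      rw [a, b]
      norm_num
  exact (key n).1

lemma ch_grow (t : ℤ) (ht : 3 ≤ |t|) (n : ℕ) :
    2 ≤ |ch t n| ∧ 2 * |ch t n| ≤ |ch t (n + 1)| + 1 := by
  induction n with
  | zero =>
    have h0 : ch t 0 = 2 := rfl
    have h1 : ch t 1 = t := rfl
    rw [h0, h1]
    norm_num
    omega
  | succ n ih =>
    obtain ⟨h1, h2⟩ := ih
    have h3 : ch t (n + 1 + 1) = t * ch t (n + 1) - ch t n := rfl
    have h4 : |t * ch t (n + 1)| - |ch t n| ≤ |ch t (n + 1 + 1)| := by
      rw [h3]; exact abs_sub_abs_le_abs_sub _ _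
    rw [abs_mul] at h4
    have h5 : 3 * |ch t (n + 1)| ≤ |t| * |ch t (n + 1)| :=
      mul_le_mul_of_nonneg_right ht (abs_nonneg _)
    constructor
    · omega
    · omega

lemma ch_ne (t : ℤ) (k : ℕ) (hk : 2 ≤ k) : ch t k ≠ 30 := by
  intro h
  by_cases ht : |t| ≤ 2
  · have := ch_small t ht k
    rw [h] at this
    norm_num at this
  · have ht' : 3 ≤ |t| := by omega
    have h2 : ch t 2 = t ^ 2 - 2 := by
      show t * t - 2 = _
      ring
    have h3 : ch t 3 = t ^ 3 - 3 * t := by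
      show t * (t * t - 2) - t = _
      ring
    have h4 : ch t 4 = (t ^ 2 - 2) ^ 2 - 2 := by
      show t * (t * (t * t - 2) - t) - (t * t - 2) = _
      ring
    have hsq : 9 ≤ t ^ 2 := by
      have : (3 : ℤ) ^ 2 ≤ |t| ^ 2 := pow_le_pow_left₀ (by norm_num) ht' 2
      rw [sq_abs] at this
      linarith
    have hmono : ∀ j, 4 ≤ j → 47 ≤ |ch t j| := by
      intro j hj
      induction j, hj using Nat.le_induction with
      | base =>
        rw [h4]
        have : 47 ≤ (t ^ 2 - 2) ^ 2 - 2 := by nlinarith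
        exact this.trans (le_abs_self _)
      | succ j hj ih =>
        have := (ch_grow t ht' j).2
        omega
    rcases (by omega : k = 2 ∨ k = 3 ∨ 4 ≤ k) with rfl | rfl | hk4
    · rw [h2] at h
      have h5 : t ^ 2 = 32 := by linarith
      have h6 : |t| ≤ 5 := by
        by_contra hc
        have : (6 : ℤ) ^ 2 ≤ |t| ^ 2 := pow_le_pow_left₀ (by norm_num) (by omega) 2
        rw [sq_abs] at this
        linarith
      obtain ⟨h7, h8⟩ := abs_le.1 h6
      interval_cases t <;> omega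
    · rw [h3] at h
      have h6 : |t| ≤ 5 := by
        by_contra hc
        have h7 : (36 : ℤ) ≤ t ^ 2 := by
          have : (6 : ℤ) ^ 2 ≤ |t| ^ 2 := pow_le_pow_left₀ (by norm_num) (by omega) 2
          rw [sq_abs] at this
          linarith
        have h8 : |t ^ 3 - 3 * t| = |t| * (t ^ 2 - 3) := by
          rw [show t ^ 3 - 3 * t = t * (t ^ 2 - 3) by ring, abs_mul, abs_of_nonneg (by linarith : 0 ≤ t ^ 2 - 3)]
        rw [h] at h8
        have h9 : (30 : ℤ) = |t| * (t ^ 2 - 3) := by rw [← h8]; norm_num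
        nlinarith
      obtain ⟨h7, h8⟩ := abs_le.1 h6
      interval_cases t <;> omega
    · have := hmono k hk4
      rw [h] at this
      norm_num at this

/-- The word is not a proper power. -/
lemma not_pow (v : FreeGroup (Fin 2)) (k : ℕ) (hk : 2 ≤ k) : v ^ k ≠ word := by
  intro h
  let X : SL(2, ℤ) := ⟨!![1, -1; 1, 0], by simp [Matrix.det_fin_two]⟩
  let Y : SL(2, ℤ) := ⟨!![1, 1; 0, 1], by simp [Matrix.det_fin_two]⟩
  have h1 : (FreeGroup.lift ![X, Y] v) ^ k = wordVal X Y := by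
    rw [← map_pow, h, lift_word]
  have h2 : ((wordVal X Y : SL(2, ℤ)) : Matrix (Fin 2) (Fin 2) ℤ).trace = 30 := by
    decide +kernel
  rw [← h1, trace_pow] at h2
  exact ch_ne _ k hk h2

end nonpower

end Pool.Agent.W332.Half
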