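import Pool.Agent.W332.Half

set_option autoImplicit false

open Matrix
open scoped MatrixGroups

namespace Pool.Agent.W332.Half

variable {F : Type*} [Field F]

/-- The trace of the value of the word on `SL(2, F)`, `F` of characteristic `2`. -/
lemma trace_wordVal (h2 : (2 : F) = 0) (X Y : SL(2, F)) :
    ∃ g : F, ((wordVal X Y : SL(2, F)) : Matrix (Fin 2) (Fin 2) F).trace = g ^ 2 + g := by
  set B : SL(2, F) := Y * X * Y⁻¹ with hB
  set a : Matrix (Fin 2) (Fin 2) F := (X : Matrix (Fin 2) (Fin 2) F) with ha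
  set b : Matrix (Fin 2) (Fin 2) F := (B : Matrix (Fin 2) (Fin 2) F) with hb
  have hda : a 0 0 * a 1 1 - a 0 1 * a 1 0 = 1 := by
    have := X.det_coe
    rwa [Matrix.det_fin_two] at this
  have hdb : b 0 0 * b 1 1 - b 0 1 * b 1 0 = 1 := by
    have := B.det_coe
    rwa [Matrix.det_fin_two] at this
  have htb : b.trace = a.trace := by
    have h1 : b = (Y : Matrix (Fin 2) (Fin 2) F) * a * ((Y⁻¹ : SL(2, F)) : Matrix (Fin 2) (Fin 2) F) := by
      rw [hb, hB, Matrix.SpecialLinearGroup.coe_mul, Matrix.SpecialLinearGroup.coe_mul]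
    rw [h1, Matrix.trace_mul_comm, ← mul_assoc, ← Matrix.SpecialLinearGroup.coe_mul, inv_mul_cancel,
      Matrix.SpecialLinearGroup.coe_one, one_mul]
  have hta : a.trace = a 0 0 + a 1 1 := Matrix.trace_fin_two a
  have htb' : b 0 0 + b 1 1 = a 0 0 + a 1 1 := by
    rw [← Matrix.trace_fin_two b, htb, hta]
  set s : F := a 0 0 + a 1 1 with hs
  set b' : Matrix (Fin 2) (Fin 2) F := s • 1 - b with hb'
  set a' : Matrix (Fin 2) (Fin 2) F := s • 1 - a with ha'
  have hinv : ((B⁻¹ : SL(2, F)) : Matrix (Fin 2) (Fin 2) F) = b' := by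
    rw [Matrix.SpecialLinearGroup.coe_inv, Matrix.adjugate_fin_two, hb']
    ext i j
    fin_cases i <;> fin_cases j <;> simp [← hb, ← htb']
  have hinva : ((X⁻¹ : SL(2, F)) : Matrix (Fin 2) (Fin 2) F) = a' := by
    rw [Matrix.SpecialLinearGroup.coe_inv, Matrix.adjugate_fin_two, ha']
    ext i j
    fin_cases i <;> fin_cases j <;> simp [← ha, hs]
  have haa : a * a = s • a - 1 := by
    ext i j
    fin_cases i <;> fin_cases j <;> simp [Matrix.mul_apply, Fin.sum_univ_two, hs]
    · linear_combination -hda
    · ring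
    · ring
    · linear_combination -hda
  have hbb : b * b = s • b - 1 := by
    ext i j
    fin_cases i <;> fin_cases j <;> simp [Matrix.mul_apply, Fin.sum_univ_two, ← htb']
    · linear_combination -hdb
    · ring
    · ring
    · linear_combination -hdb
  have hba : b * a = -(a * b) + s • a + s • b - (s ^ 2 - (a * b).trace) • 1 := by
    have e1 : b 1 1 = a 0 0 + a 1 1 - b 0 0 := by linear_combination htb'
    ext i j
    fin_cases i <;> fin_cases j <;>
      simp [Matrix.mul_apply, Fin.sum_univ_two, hs, Matrix.trace_fin_two, e1] <;> ring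
  refine ⟨s ^ 4 * (s ^ 2 - (a * b).trace) + s ^ 2 * (s ^ 2 - (a * b).trace) ^ 2, ?_⟩
  rw [wordVal_eq]
  simp only [Matrix.SpecialLinearGroup.coe_mul, Matrix.SpecialLinearGroup.coe_one]
  simp only [← Matrix.SpecialLinearGroup.coe_mul, ← hB]
  simp only [hinv, hinva, ← ha, ← hb]
  exact trace_word h2 a b a' b' s (s ^ 2 - (a * b).trace) hta (by rw [htb, hta]) (by ring) haa hbb
    hba ha' hb'

/-- The diagonal matrix with entries `u, u⁻¹`. -/
def dg {K : Type*} [Field K] (u : Kˣ) : SL(2, K) :=
  ⟨!![(u : K), 0; 0, ((u⁻¹ : Kˣ) : K)], by simp [Matrix.det_fin_two]⟩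

lemma dg_mul {K : Type*} [Field K] (u v : Kˣ) : dg (u * v) = dg u * dg v := by
  apply Subtype.ext
  rw [Matrix.SpecialLinearGroup.coe_mul]
  simp [dg, Matrix.mul_fin_two, mul_comm]

lemma dg_one {K : Type*} [Field K] : dg (1 : Kˣ) = 1 := by
  apply Subtype.ext
  simp [dg, Matrix.one_fin_two]

/-- `dg` as a homomorphism -/
def dgHom (K : Type*) [Field K] : Kˣ →* SL(2, K) where
  toFun := dg
  map_one' := dg_one
  map_mul' := dg_mul

/-- eigenvectors -/
lemma exists_diag {K : Type*} [Field K] (M : SL(2, K)) (l : Kˣ) (hl : (l : K) ≠ ((l⁻¹ : Kˣ) : K))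
    (ht : (M : Matrix (Fin 2) (Fin 2) K).trace = l + ((l⁻¹ : Kˣ) : K)) :
    ∃ h : SL(2, K), M = h * dg l * h⁻¹ := by
  set m : Matrix (Fin 2) (Fin 2) K := (M : Matrix (Fin 2) (Fin 2) K) with hm
  set l' : K := ((l⁻¹ : Kˣ) : K) with hl'
  have hll : (l : K) * l' = 1 := by rw [hl']; simp
  have hdet : m 0 0 * m 1 1 - m 0 1 * m 1 0 = 1 := by
    have := M.det_coe
    rwa [Matrix.det_fin_two] at this
  rw [Matrix.trace_fin_two] at ht
  have ev : ∀ x : K, x = l ∨ x = l' → ∃ v : Fin 2 → K, v ≠ 0 ∧
      m 0 0 * v 0 + m 0 1 * v 1 = x * v 0 ∧ m 1 0 * v 0 + m 1 1 * v 1 = x * v 1 := by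
    intro x hx
    have hd : (m - x • (1 : Matrix (Fin 2) (Fin 2) K)).det = 0 := by
      rw [Matrix.det_fin_two]
      simp
      rcases hx with rfl | rfl
      · linear_combination hdet - (l : K) * ht - hll
      · linear_combination hdet - l' * ht - hll
    obtain ⟨v, hv, hv'⟩ := Matrix.exists_mulVec_eq_zero_iff.2 hd
    refine ⟨v, hv, ?_, ?_⟩
    · have := congrFun hv' 0
      simp [Matrix.mulVec, dotProduct, Fin.sum_univ_two] at this
      linear_combination this
    · have := congrFun hv' 1
      simp [Matrix.mulVec, dotProduct, Fin.sum_univ_two] at this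
      linear_combination this
  obtain ⟨v, hv, hv0, hv1⟩ := ev l (Or.inl rfl)
  obtain ⟨w, hw, hw0, hw1⟩ := ev l' (Or.inr rfl)
  have hD : v 0 * w 1 - v 1 * w 0 ≠ 0 := by
    intro hD
    -- `w` is a multiple of `v`
    have hvw : ∀ i, (l - l') * w i = 0 := by
      rcases (by
        by_contra hc
        push Not at hc
        exact hv (by ext i; fin_cases i <;> simp [hc.1, hc.2]) : v 0 ≠ 0 ∨ v 1 ≠ 0) with h | h
      · have h1 : (l - l') * w 0 = 0 := by
          have : v 0 * ((l - l') * w 0) = 0 := by
            linear_combination (-(w 0)) * hv0 + v 0 * hw0 - m 0 1 * hD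
          exact (mul_eq_zero.1 this).resolve_left h
        have h2 : (l - l') * w 1 = 0 := by
          have : v 0 * ((l - l') * w 1) = 0 := by
            linear_combination v 1 * h1 + (l - l') * hD
          exact (mul_eq_zero.1 this).resolve_left h
        intro i
        fin_cases i
        · exact h1
        · exact h2
      · have h2 : (l - l') * w 1 = 0 := by
          have : v 1 * ((l - l') * w 1) = 0 := by
            linear_combination (-(w 1)) * hv1 + v 1 * hw1 + m 1 0 * hD
          exact (mul_eq_zero.1 this).resolve_left h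
        have h1 : (l - l') * w 0 = 0 := by
          have : v 1 * ((l - l') * w 0) = 0 := by
            linear_combination v 0 * h2 - (l - l') * hD
          exact (mul_eq_zero.1 this).resolve_left h
        intro i
        fin_cases i
        · exact h1
        · exact h2
    apply hw
    ext i
    exact (mul_eq_zero.1 (hvw i)).resolve_left (sub_ne_zero.2 hl)
  set D : K := v 0 * w 1 - v 1 * w 0 with hDD
  let h : SL(2, K) := ⟨!![v 0, w 0 / D; v 1, w 1 / D], by
    rw [Matrix.det_fin_two]
    simp only [Matrix.of_apply, Matrix.cons_val', Matrix.cons_val_zero, Matrix.cons_val_one,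
      Matrix.cons_val_fin_one]
    field_simp
    rw [hDD]
    ring⟩
  refine ⟨h, ?_⟩
  rw [eq_mul_inv_iff_mul_eq]
  apply Subtype.ext
  rw [Matrix.SpecialLinearGroup.coe_mul, Matrix.SpecialLinearGroup.coe_mul, ← hm]
  have hw0' : m 0 0 * (w 0 / D) + m 0 1 * (w 1 / D) = l' * (w 0 / D) := by
    field_simp; linear_combination hw0
  have hw1' : m 1 0 * (w 0 / D) + m 1 1 * (w 1 / D) = l' * (w 1 / D) := by
    field_simp; linear_combination hw1
  ext i j
  fin_cases i <;> fin_cases j <;>
    simp [h, dg, Matrix.mul_apply, Fin.sum_univ_two, -Units.val_inv_eq_inv_val]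
  · linear_combination hv0
  · linear_combination hw0'
  · linear_combination hv1
  · linear_combination hw1'

/-- centraliser of a regular diagonal matrix -/
lemma comm_dg {K : Type*} [Field K] (l : Kˣ) (hl : (l : K) ≠ ((l⁻¹ : Kˣ) : K)) (z : SL(2, K)) :
    z * dg l = dg l * z ↔ ∃ u : Kˣ, z = dg u := by
  constructor
  · intro h
    have h1 := congrArg (fun A : SL(2, K) => (A : Matrix (Fin 2) (Fin 2) K)) h
    simp only [Matrix.SpecialLinearGroup.coe_mul] at h1
    have h01 := congrFun (congrFun h1 0) 1
    have h10 := congrFun (congrFun h1 1) 0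
    simp [dg, Matrix.mul_apply, Fin.sum_univ_two, -Units.val_inv_eq_inv_val] at h01 h10
    have z01 : (z : Matrix (Fin 2) (Fin 2) K) 0 1 = 0 := by
      have : ((l : K) - ((l⁻¹ : Kˣ) : K)) * (z : Matrix (Fin 2) (Fin 2) K) 0 1 = 0 := by
        linear_combination -h01
      exact (mul_eq_zero.1 this).resolve_left (sub_ne_zero.2 hl)
    have z10 : (z : Matrix (Fin 2) (Fin 2) K) 1 0 = 0 := by
      have : ((l : K) - ((l⁻¹ : Kˣ) : K)) * (z : Matrix (Fin 2) (Fin 2) K) 1 0 = 0 := by
        linear_combination h10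
      exact (mul_eq_zero.1 this).resolve_left (sub_ne_zero.2 hl)
    have hd := z.det_coe
    rw [Matrix.det_fin_two, z01, zero_mul, sub_zero] at hd
    refine ⟨⟨(z : Matrix (Fin 2) (Fin 2) K) 0 0, (z : Matrix (Fin 2) (Fin 2) K) 1 1, hd, by
      rw [mul_comm]; exact hd⟩, ?_⟩
    apply Subtype.ext
    ext i j
    fin_cases i <;> fin_cases j <;> simp [dg, z01, z10, -Units.val_inv_eq_inv_val]
  · rintro ⟨u, rfl⟩
    rw [← dg_mul, ← dg_mul, mul_comm]

/-- `t` is not of the form `A ^ 2 + A`: half of the elements of a finite field of characteristic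
two. -/
lemma half_card (K : Type*) [Field K] [Finite K] [CharP K 2] :
    2 * {t : K | ∀ A : K, t ≠ A ^ 2 + A}.ncard = Nat.card K := by
  classical
  let f : K →+ K :=
    { toFun := fun A => A ^ 2 + A
      map_zero' := by simp
      map_add' := fun a b => by
        have := CharTwo.two_eq_zero (R := K)
        linear_combination (a * b) * this }
  have hker : Nat.card f.ker = 2 := by
    have h1 : (f.ker : Set K) = {0, 1} := by
      ext a
      simp only [SetLike.mem_coe, AddMonoidHom.mem_ker, Set.mem_insert_iff, Set.mem_singleton_iff]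
      constructor
      · intro h
        have h2 : a * (a + 1) = 0 := by
          have h3 : a ^ 2 + a = 0 := h
          linear_combination h3
        rcases mul_eq_zero.1 h2 with h3 | h3
        · exact Or.inl h3
        · right
          have := CharTwo.two_eq_zero (R := K)
          linear_combination h3 - this
      · rintro (rfl | rfl)
        · exact f.map_zero
        · show (1 : K) ^ 2 + 1 = 0
          have := CharTwo.two_eq_zero (R := K)
          linear_combination this
    have h2 : Nat.card f.ker = (f.ker : Set K).ncard := Nat.card_coe_set_eq _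
    rw [h2, h1, Set.ncard_pair zero_ne_one]
  have hrange : 2 * (f.range : Set K).ncard = Nat.card K := by
    have h1 := f.ker.card_mul_index
    have h2 : f.ker.index = Nat.card f.range := AddSubgroup.index_ker f
    rw [hker, h2] at h1
    rw [← h1]
    congr 1
  have hcompl : {t : K | ∀ A : K, t ≠ A ^ 2 + A} = ((f.range : Set K))ᶜ := by
    ext t
    simp only [Set.mem_setOf_eq, Set.mem_compl_iff, SetLike.mem_coe, AddMonoidHom.mem_range,
      not_exists]
    exact forall_congr' fun A => ⟨fun h h' => h h'.symm, fun h h' => h h'.symm⟩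
  rw [hcompl]
  have h3 := Set.ncard_add_ncard_compl (f.range : Set K)
  omega

end Pool.Agent.W332.Half
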